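import Mathlib
import Pool.Agent.J6H31.MK.ArtB

/-!
# Artin's holomorphy conjecture: characters which are nontrivial on commuting normal subgroups

`Pool.Agent.H541R3.ART.Irr G` is the set of irreducible complex characters of the finite group `G`.

`Pool.Agent.H541R3.ART.ArtinData G s₀` is a family of functions with the formal properties of the
Artin L-functions of a Galois extension `E/K` with group `G` near a point `s₀ ≠ 1`: functions
`L χ` for the irreducible characters `χ` of `G` and `Lin H ψ` for the linear characters `ψ` of the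
subgroups `H`, such that `L χ` is meromorphic and not identically zero near `s₀` (Brauer), `Lin H ψ`
has no pole at `s₀` (Artin reciprocity and Hecke), and `Lin H ψ` is the product of the
`L χ ^ ⟨χ|_H, ψ⟩` (induction). In particular `Lin H 1` stands for the Dedekind zeta function of the
fixed field of `H`, and `Lin ⊥ 1` for that of `E`.

`s.sup N` is the subgroup generated by the `N i` with `i ∈ s`.
-/

set_option autoImplicit false

open Pool.Agent.H541R3.ART Pool.Agent.J6H31.MK

/-- Let `E/K` be Galois with group `G`, and let `N 1, …, N k` be normal subgroups of `G` which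
commute with each other. For `s ⊆ {1, …, k}` let `z s` be the order at `s₀` of the zeta function of
the fixed field of `∏_{i ∈ s} N i`. (1) The alternating sum `∑_s (-1)^|s| z s` is nonnegative.
(2) If it is zero, then `L(s, χ)` is holomorphic and nonzero at `s₀` for every irreducible character
`χ` of `G` which is nontrivial on all the `N i`. (3) The same holds if `N i` is isomorphic to the
alternating group of degree `n i ≥ 5` for all `i`, and the order of `ζ_E` at `s₀` is smaller than
the product of the numbers `(2 ^ e i - 1) ⌊n i / 2 ^ e i⌋` for some `e i ≥ 2`. -/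
theorem Pool.Agent.Results.MP_d2121a_nt.CommutingNormalSubgroups.result
    (G : Type) [Group G] [Finite G] (s₀ : ℂ) (A : ArtinData G s₀) (k : ℕ)
    (N : Fin k → Subgroup G) (hN : ∀ i, (N i).Normal)
    (hcomm : ∀ i j, i ≠ j → ∀ a ∈ N i, ∀ b ∈ N j, a * b = b * a) :
    (∀ z : Finset (Fin k) → ℕ,
      (∀ s, meromorphicOrderAt (A.Lin (s.sup N) 1) s₀ = (z s : WithTop ℤ)) →
      0 ≤ ∑ s : Finset (Fin k), (-1 : ℤ) ^ s.card * z s ∧
      (∑ s : Finset (Fin k), (-1 : ℤ) ^ s.card * z s = 0 →
        ∀ χ ∈ Irr G, (∀ i, ∃ x ∈ N i, χ x ≠ χ 1) → meromorphicOrderAt (A.L χ) s₀ = 0)) ∧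
    (∀ n e : Fin k → ℕ, (∀ i, 5 ≤ n i) → (∀ i, 2 ≤ e i) →
      (∀ i, Nonempty (N i ≃* alternatingGroup (Fin (n i)))) →
      ∀ r : ℕ, meromorphicOrderAt (A.Lin ⊥ 1) s₀ = (r : WithTop ℤ) →
      r < ∏ i, (2 ^ e i - 1) * (n i / 2 ^ e i) →
      ∀ χ ∈ Irr G, (∀ i, ∃ x ∈ N i, χ x ≠ χ 1) → meromorphicOrderAt (A.L χ) s₀ = 0) :=
  ⟨fun z hz => artin_alt A N hN hcomm z hz,
    fun n e h5 h2 hiso _ hr hrb => artin_alternating A N hN hcomm n e h5 h2 hiso hr hrb⟩
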