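import Mathlib
import Pool.Agent.J6H31.EX.Art

/-!
# Exceptional characters and Artin L-functions

`Pool.Agent.H541R3.ART.Irr G` is the set of irreducible complex characters of the finite group `G`.

`Pool.Agent.R389.ind H f` is the class function on `G` induced from the class function `f` on the
subgroup `H`.

`Pool.Agent.H541R3.ART.ArtinData G s₀` is a family of functions with the formal properties of the
Artin L-functions of a Galois extension `E/K` with group `G` near a point `s₀ ≠ 1`: functions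
`L χ` for the irreducible characters `χ` of `G` and `Lin H ψ` for the linear characters `ψ` of the
subgroups `H`, such that `L χ` is meromorphic and not identically zero near `s₀` (Brauer), `Lin H ψ`
has no pole at `s₀` (Artin reciprocity and Hecke), and `Lin H ψ` is the product of the
`L χ ^ ⟨χ|_H, ψ⟩` (induction). In particular `Lin ⊥ 1` stands for the Dedekind zeta function of `E`.

Proof. The differences of the induced characters have norm two, so by the theory of Brauer and
Suzuki they are differences of irreducible characters `Λ i` of `G` up to a common sign `ε`. Hence the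
orders `n i` of the `L (Λ i)` at `s₀` have the form `ε * a i + c` with `c` independent of `i`, where
`a i ≥ 0` is the order of the L-function of the character of `C`. Now compare two inequalities: the
multiplicities `a i` of a Heilbronn character of degree `m` in all the conjugates of the characters
of `C` satisfy `e * d * ∑ a i ≤ m`, while `∑ (n i) ^ 2 ≤ m ^ 2` (Foote and Murty). So `c` is small.
-/

set_option autoImplicit false

open Pool.Agent.H541R3.ART Pool.Agent.R389

/-- (1) Let `G` be the Galois group of `E/K`, let `M ≤ C` be subgroups of `G` with `M` central and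
let `μ` be a linear character of `M`. Assume that all irreducible characters of `C` are monomial
(for instance that `C` is nilpotent or supersolvable). Let `N` be the normalizer of `C`,
`e = |N : C|`, and let `D` be a set of elements of `G` with `D ∩ x D x⁻¹ = ∅` for all `x` outside `N`
(a trivial intersection set). Let `lam i`, `i` in `ι`, be `k ≥ 2` irreducible characters of `C` of
degree `d` with `lam i = d * μ` on `M` which agree on `C \ D`, which are pairwise not conjugate in `N`
and whose inertia group in `N` is `C`.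

Then there are a sign `ε` and `k` different irreducible characters `Λ i` of `G` over `μ` (the
exceptional characters) with `Λ i - Λ j = ε * (Ind (lam i) - Ind (lam j))`, and every other
irreducible character of `G` contains all `lam i` equally often. For all Artin L-functions of
extensions with group `G`: if `m` is the order of the L-function of `μ` over the fixed field of `M`
(for `M = 1`: of the Dedekind zeta function of `E`) at `s₀ ≠ 1`, `a i ≥ 0` is the order of the
L-function of `lam i` over the fixed field of `C` (the product of the `L χ ^ ⟨χ|_C, lam i⟩`), then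
`L (Λ i)` has at `s₀` the order `ε * a i + c` with an integer `c` not depending on `i`, where
`e d ∑ a i ≤ m`, `∑ (ε * a i + c) ^ 2 ≤ m ^ 2` and `|c| ≤ (√k + 1 / (e d)) / k * m`; here `√k` may be
replaced by any upper bound for the mean over `G` of `|∑ Λ i|`. If `e d m ^ 2 + m < e d k`, then
`c = 0`.

(2) Let `C` be an abelian subgroup of `G` containing the centralizers of its elements `≠ 1`, let
`e = |N : C|` and let `k = (|C| - 1) / e ≥ 2`. Then (1) holds with `M = 1` and `d = 1` for all
nontrivial linear characters `l` of `C`, up to conjugacy in `N`: `L (Λ l)` has at `s₀` the order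
`ε * z + c`, where `z ≤ r / e` is the order of the L-function of `l`, `r` is the order of the
Dedekind zeta function of `E`, and `|c| ≤ (√k + 1 / e) / k * r`; `c = 0` if `e r ^ 2 + r < |C| - 1`. -/
theorem Pool.Agent.Results.MP_d2121a_nt.ExceptionalCharacters.result
    (G : Type) [Group G] [Finite G] (C : Subgroup G) (e : ℕ)
    (he : e * Nat.card C = Nat.card (Subgroup.normalizer (C : Set G))) :
    (∀ (M : Subgroup G) (μ : M →* ℂˣ), M ≤ C → M ≤ Subgroup.center G →
      (∀ χ ∈ Irr C, ∃ (K : Subgroup C) (ψ : K →* ℂˣ), χ = ind K (fun h => ((ψ h : ℂˣ) : ℂ))) →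
      ∀ D : Set G,
      (∀ x, ∀ z ∈ D, x⁻¹ * z * x ∈ D → x ∈ Subgroup.normalizer (C : Set G)) →
      ∀ (ι : Type) [Fintype ι] (lam : ι → C → ℂ) (d k : ℕ),
      (∀ i, lam i ∈ Irr C) →
      (∀ i j, ∀ x ∈ Subgroup.normalizer (C : Set G),
        (∀ z w : C, (w : G) = x⁻¹ * z * x → lam i w = lam j z) → i = j ∧ x ∈ C) →
      (∀ z : C, (z : G) ∉ D → ∀ i j, lam i z = lam j z) →
      (∀ i (z : M) (w : C), (w : G) = z → lam i w = d * ((μ z : ℂˣ) : ℂ)) →
      Fintype.card ι = k → 2 ≤ k →
      ∃ (ε : ℤ) (Λ : ι → G → ℂ), (ε = 1 ∨ ε = -1) ∧ (∀ i, Λ i ∈ Irr G) ∧ Function.Injective Λ ∧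
        (∀ i j g, Λ i g - Λ j g = ε * (ind C (lam i) g - ind C (lam j) g)) ∧
        (∀ i (g : G) (z : M), Λ i (g * z) = ((μ z : ℂˣ) : ℂ) * Λ i g) ∧
        (∀ χ ∈ Irr G, (∀ i, Λ i ≠ χ) → ∀ i j,
          ∑ᶠ x : C, χ x * lam i x⁻¹ = ∑ᶠ x : C, χ x * lam j x⁻¹) ∧
        ∀ (s₀ : ℂ) (A : ArtinData G s₀) (m : ℕ),
          meromorphicOrderAt (A.Lin M μ) s₀ = (m : WithTop ℤ) →
          ∀ mu : ι → (G → ℂ) → ℕ, (∀ i, ∀ χ ∈ Irr G,
            ∑ᶠ x : C, χ x * lam i x⁻¹ = (mu i χ : ℂ) * (Nat.card C : ℂ)) →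
          ∃ (a : ι → ℕ) (c : ℤ),
            (∀ i, meromorphicOrderAt (fun s => ∏ᶠ χ ∈ Irr G, A.L χ s ^ mu i χ) s₀
              = (a i : WithTop ℤ)) ∧
            (∀ i, meromorphicOrderAt (A.L (Λ i)) s₀ = ((ε * a i + c : ℤ) : WithTop ℤ)) ∧
            e * d * ∑ i, a i ≤ m ∧
            ∑ i, (ε * a i + c) ^ 2 ≤ (m : ℤ) ^ 2 ∧
            |(c : ℝ)| ≤ (√k + 1 / (e * d)) / k * m ∧
            (∀ w : ℝ, ∑ᶠ g, ‖∑ i, Λ i g‖ ≤ w * Nat.card G →
              |(c : ℝ)| ≤ (w + 1 / (e * d)) / k * m) ∧
            (e * d * m ^ 2 + m < e * d * k → c = 0)) ∧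
    ∀ k : ℕ, (∀ a ∈ C, ∀ b ∈ C, a * b = b * a) →
      (∀ a ∈ C, a ≠ 1 → ∀ g, g * a = a * g → g ∈ C) → Nat.card C = 1 + e * k → 2 ≤ k →
      ∃ (ε : ℤ) (Λ : (C →* ℂˣ) → G → ℂ), (ε = 1 ∨ ε = -1) ∧
        (∀ l, l ≠ 1 → Λ l ∈ Irr G) ∧
        (∀ l l', l ≠ 1 → l' ≠ 1 → (Λ l = Λ l' ↔ ∃ g ∈ Subgroup.normalizer (C : Set G),
          ∀ z w : C, (w : G) = g * z * g⁻¹ → l w = l' z)) ∧
        (∀ l l', l ≠ 1 → l' ≠ 1 → ∀ g, Λ l g - Λ l' g
          = ε * (ind C (fun h => ((l h : ℂˣ) : ℂ)) g - ind C (fun h => ((l' h : ℂˣ) : ℂ)) g)) ∧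
        ∀ (s₀ : ℂ) (A : ArtinData G s₀) (r : ℕ),
          meromorphicOrderAt (A.Lin ⊥ 1) s₀ = (r : WithTop ℤ) →
          ∃ c : ℤ, (∀ l, l ≠ 1 → ∃ z : ℕ, e * z ≤ r ∧
              meromorphicOrderAt (A.Lin C l) s₀ = (z : WithTop ℤ) ∧
              meromorphicOrderAt (A.L (Λ l)) s₀ = ((ε * z + c : ℤ) : WithTop ℤ)) ∧
            |(c : ℝ)| ≤ (√k + 1 / e) / k * r ∧
            (e * r ^ 2 + r < e * k → c = 0) := by
  refine ⟨?_, fun k hab hcc hk hk2 => Pool.Agent.J6H31.EX.art_cc hab hcc he hk hk2⟩
  intro M μ hMC hMZ hC D hTI ι _ lam d k hl hst hD hμ hk hk2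
  exact Pool.Agent.J6H31.EX.art_main hMC hMZ hC D hTI hl hst hD hμ he hk hk2
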