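import Mathlib
import Pool.Agent.J6H95.GL2.Last

/-!
# Artin L-functions of `GL_2(F_q)`: the total order of the poles

`Pool.Agent.H541R3.ART.Irr G` is the set of irreducible complex characters of the finite group `G`.

`Pool.Agent.H541R3.ART.ArtinData G s₀` is a family of functions with the formal properties of the
Artin L-functions of a Galois extension `E/K` with group `G` near a point `s₀ ≠ 1`: functions
`L χ` for the irreducible characters `χ` of `G` and `Lin H ψ` for the linear characters `ψ` of the
subgroups `H`, such that `L χ` is meromorphic and not identically zero near `s₀` (Brauer), `Lin H ψ`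
has no pole at `s₀` (Artin reciprocity and Hecke), and `Lin H ψ` is the product of the
`L χ ^ ⟨χ|_H, ψ⟩` (induction). In particular `Lin ⊥ 1` stands for the Dedekind zeta function of `E`.

`Pool.Agent.J6H95.GL2.ut a e x` is the upper triangular matrix with the diagonal entries `a`, `e`
and the entry `x` above the diagonal. The condition `∑ x, χ (f (ut 1 1 x)) = 0` says that the
restriction of `χ ∘ f` to the group of the unipotent upper triangular matrices does not contain the
trivial character; for the nonlinear irreducible characters of `GL_2(k)` it singles out the cuspidal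
ones, those of degree `q - 1`.

Proof. The orders of the `L χ` at `s₀` are the multiplicities of a class function `θ` whose
restriction to every subgroup has nonnegative multiplicities against all linear characters. After
passing to a component over the centre `G = GL_2(k)`. Averaging over the unipotent radical on the
split torus, and the analogous combination of `θ` and its value at the unipotent elements on the
nonsplit torus, turn twice the scalar product of class functions of `GL_2(k)` into the sum of the
scalar products on the two tori. The coefficients of `θ` on the two tori are `T ≥ 0` and `U - Z`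
with `U, Z ≥ 0`, `∑ U = r`, `Z ≤ m`, where `θ(u) = r - q m` for the unipotent `u`; the coefficients
of the nonlinear irreducible characters are disjoint indicator functions on the two tori, with the
sign `-1` on the nonsplit one. In characteristic three `θ(u) = θ(1)` spreads from the unipotent
elements to `SL_2(k)` if `-1` acts trivially, by means of the subgroup `SL_2(3)`, whose elements
outside the quaternion group are unipotent up to sign, and of products of elements of order four.
-/

set_option autoImplicit false

open Pool.Agent.H541R3.ART Matrix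

/-- Let `k = F_q` be a finite field and let `G` be a finite group which is generated by its centre
and a homomorphic image of `GL_2(k)` (for example a quotient of `GL_2(k) × A` with `A` abelian). Let
`G` be the Galois group of `E/K` and let `r` be the order of `ζ_E` at `s₀`.

(1) The sum over all irreducible characters `χ` of `G` of the orders of the poles of `L(s, χ)` at
`s₀` is at most `r / 2`.

(2) `∑ |ord L(s, χ)| ≤ r + m` with `(q - 1) m ≤ r`, the sum over the irreducible characters of
degree different from `1`; so this sum is at most `r` if `r < q - 1`.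

(3) If `r < q - 1`, then `L(s, χ)` does not vanish at `s₀` (the order is at most `0`) for the
cuspidal characters `χ`.

(4) If `q` is a power of three and `r < q - 1`, then `L(s, χ)` is holomorphic and nonzero at `s₀`
for all irreducible characters `χ` of degree different from `1` with `χ(-1) = χ(1)`; for example for
all of them if `G` is a quotient of `PGL_2(k) × A`, `A` abelian. -/
theorem Pool.Agent.Results.MP_d2121a_nt.GLTwoTotalPoles.result
    (k : Type) [Field k] [Finite k] (G : Type) [Group G] [Finite G]
    (f : GL (Fin 2) k →* G) (hf : f.range ⊔ Subgroup.center G = ⊤)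
    (s₀ : ℂ) (A : ArtinData G s₀) (r : ℕ)
    (hr : meromorphicOrderAt (A.Lin ⊥ 1) s₀ = (r : WithTop ℤ)) :
    2 * ∑ᶠ χ ∈ Irr G, max 0 (-(meromorphicOrderAt (A.L χ) s₀).untop₀) ≤ r ∧
    (∃ m : ℕ, (Nat.card k - 1) * m ≤ r ∧
      ∑ᶠ χ ∈ {χ : G → ℂ | χ ∈ Irr G ∧ χ 1 ≠ 1}, |(meromorphicOrderAt (A.L χ) s₀).untop₀| ≤ r + m) ∧
    (r + 1 < Nat.card k → ∀ χ ∈ Irr G, χ 1 ≠ 1 →
      ∑ᶠ x : k, χ (f (Pool.Agent.J6H95.GL2.ut 1 1 x)) = 0 → meromorphicOrderAt (A.L χ) s₀ ≤ 0) ∧
    (CharP k 3 → r + 1 < Nat.card k → ∀ χ ∈ Irr G, χ 1 ≠ 1 → χ (f (-1)) = χ 1 →
      meromorphicOrderAt (A.L χ) s₀ = 0) := by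
  classical
  have : Fintype k := Fintype.ofFinite k
  obtain ⟨h1, ⟨m, h2, h3⟩, h4, h5⟩ := Pool.Agent.J6H95.GL2.artin_final f hf A hr
  have hneg : Pool.Agent.J6H95.GL2.ut (-1 : kˣ) (-1) (0 : k) = -1 := by
    apply Units.ext
    rw [Pool.Agent.J6H95.GL2.ut_val]
    ext i j
    fin_cases i <;> fin_cases j <;> simp
  rw [Nat.card_eq_fintype_card]
  refine ⟨?_, ⟨m, h2, ?_⟩, ?_, ?_⟩
  · rw [finsum_mem_eq_finite_toFinset_sum _ (irr_finite (G := G))]
    exact h1
  · have h6 : {χ : G → ℂ | χ ∈ Irr G ∧ χ 1 ≠ 1} = ((Pool.Agent.J6H95.GL2.nonlinF G : Finset (G → ℂ)) : Set (G → ℂ)) := by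
      ext χ
      rw [Finset.mem_coe, Pool.Agent.J6H95.GL2.mem_nonlinF]
      rfl
    rw [h6, finsum_mem_coe_finset]
    exact h3
  · intro hq χ hχ hχ1 hx
    rw [finsum_eq_sum_of_fintype] at hx
    rw [← A.coe_ord hχ]
    exact_mod_cast h4 hq χ hχ hχ1 hx
  · intro h3' hq χ hχ hχ1 hx
    rw [← A.coe_ord hχ, h5 h3' hq χ hχ hχ1 (by rw [hneg]; exact hx)]
    rfl
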