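import Mathlib
import Pool.Agent.J6H31.RF.Art

/-!
# The inequality of Foote and Murty over a nilpotent normal subgroup

`Pool.Agent.H541R3.ART.Irr G` is the set of irreducible complex characters of the finite group `G`.

`Pool.Agent.H541R3.ART.ArtinData G s₀` is a family of functions with the formal properties of the
Artin L-functions of a Galois extension `E/K` with group `G` near a point `s₀ ≠ 1`: functions
`L χ` for the irreducible characters `χ` of `G` and `Lin H ψ` for the linear characters `ψ` of the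
subgroups `H`, such that `L χ` is meromorphic and not identically zero near `s₀` (Brauer), `Lin H ψ`
has no pole at `s₀` (Artin reciprocity and Hecke), and `Lin H ψ` is the product of the
`L χ ^ ⟨χ|_H, ψ⟩` (induction). In particular `Lin ⊥ 1` stands for the Dedekind zeta function of `E`.

Proof. The orders `n χ` are the multiplicities of a class function `θ` whose restriction to every
subgroup has nonnegative multiplicities against all linear characters, `θ(1) = r`. The main point is
that for an irreducible character `μ` of `N` fixed by `g`, `|∑ θ(x g) μ(x⁻¹)| ≤ ∑ θ(x) μ(x⁻¹)`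
(sums over `x` in `N`), although the extensions of `μ` to `⟨N, g⟩` need not be monomial. By
induction one may assume that `μ` is homogeneous on all `g`-invariant normal subgroups of `N`; then
`μ` vanishes outside its centre, and the sum becomes a sum over the centre with a `g`-invariant
linear character. The component of `θ` over `μ` on the inertia group `T` of `μ` is a virtual
character bounded by `μ(1) z`, and Clifford theory gives the inequality.
-/

set_option autoImplicit false

open Pool.Agent.H541R3.ART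

/-- Let `G` be the Galois group of `E/K`, let `r` be the order of the Dedekind zeta function of `E`
at `s₀ ≠ 1`, let `n χ` be the order of `L χ` at `s₀` (negative for a pole) and let `N` be a nilpotent
normal subgroup of `G`.

(1) `∑ (t χ * n χ) ^ 2 ≤ r ^ 2`, where the sum is over the irreducible characters `χ` of `G` and
`t χ` is the number of distinct irreducible constituents of the restriction of `χ` to `N`. For
`N = 1` this is the inequality of Foote and Murty.

(2) Let `μ` be an irreducible character of `N` of degree `d` with inertia group `T` in `G`, let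
`m χ = ⟨χ|_N, μ⟩`, and let `z` be the order at `s₀` of the L-function of `μ` over the fixed field of
`N`, which is the product of the `L χ ^ m χ`. Then `z ≥ 0`, `|G : T| d z ≤ r` and
`∑ (n χ) ^ 2 ≤ (d z) ^ 2`, where the sum is over the irreducible characters `χ` of `G` over `μ`.

More precisely, for all `g` in `T` the absolute value of `∑ n χ * ∑ χ (x g) μ (x⁻¹)`, where the
inner sum is over `x` in `N`, is at most `|N| z`, and `∑ (n χ) ^ 2` over the `χ` over `μ` is at most
the mean over `g` in `T` of `(d z) ^ 2 / c g`, where `c g > 0` is any lower bound for some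
`(d / |N|) ∑ μ (a (x g) a⁻¹ (x g)⁻¹)` with `x` in `N` (the sum is over `a` in `N`; it is the square
of the absolute value at `x g` of an extension of `μ` to the group generated by `N` and `g`). If
every element of `T` induces an inner automorphism of `N`, the bound is `z ^ 2`. -/
theorem Pool.Agent.Results.MP_d2121a_nt.NilpotentFooteMurty.result
    (G : Type) [Group G] [Finite G] (s₀ : ℂ) (A : ArtinData G s₀) (r : ℕ)
    (hr : meromorphicOrderAt (A.Lin ⊥ 1) s₀ = (r : WithTop ℤ))
    (n : (G → ℂ) → ℤ)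
    (hn : ∀ χ ∈ Irr G, meromorphicOrderAt (A.L χ) s₀ = (n χ : WithTop ℤ))
    (N : Subgroup G) [N.Normal] (hN : Group.IsNilpotent N) :
    (∑ᶠ χ ∈ Irr G, (({μ ∈ Irr N | ∑ᶠ x : N, χ x * μ x⁻¹ ≠ 0}.ncard : ℤ) * n χ) ^ 2
      ≤ (r : ℤ) ^ 2) ∧
    ∀ μ ∈ Irr N, ∀ d : ℕ, μ 1 = d →
      ∀ T : Subgroup G, (∀ g, g ∈ T ↔ ∀ x : N, μ (MulAut.conjNormal g x) = μ x) →
      ∀ m : (G → ℂ) → ℕ,
      (∀ χ ∈ Irr G, ∑ᶠ x : N, χ x * μ x⁻¹ = (m χ : ℂ) * (Nat.card N : ℂ)) →
      ∃ z : ℕ,
        meromorphicOrderAt (fun s => ∏ᶠ χ ∈ Irr G, A.L χ s ^ m χ) s₀ = (z : WithTop ℤ) ∧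
        T.index * (d * z) ≤ r ∧
        ∑ᶠ χ ∈ {χ ∈ Irr G | m χ ≠ 0}, n χ ^ 2 ≤ ((d * z : ℕ) : ℤ) ^ 2 ∧
        (∀ g ∈ T, ‖∑ᶠ χ ∈ Irr G, (n χ : ℂ) * ∑ᶠ x : N, χ (x * g) * μ x⁻¹‖ ≤ Nat.card N * z) ∧
        (∀ c : G → ℝ, (∀ g ∈ T, 0 < c g ∧ ∃ x : N,
            c g ≤ ‖(d / Nat.card N : ℂ) *
              ∑ᶠ a : N, μ (a * MulAut.conjNormal (x * g : G) a⁻¹)‖) →
          ∑ᶠ χ ∈ {χ ∈ Irr G | m χ ≠ 0}, (n χ : ℝ) ^ 2
            ≤ (d * z) ^ 2 * ((Nat.card T : ℝ)⁻¹ * ∑ᶠ g : T, (c g)⁻¹)) ∧
        ((∀ g ∈ T, ∃ x ∈ N, ∀ a ∈ N, (x * g) * a = a * (x * g)) →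
          ∑ᶠ χ ∈ {χ ∈ Irr G | m χ ≠ 0}, n χ ^ 2 ≤ (z : ℤ) ^ 2) := by
  refine ⟨Pool.Agent.J6H31.RF.art_global A hr hn N hN, fun μ hμ d hd T hT m hm => ?_⟩
  obtain ⟨z, h1, h2, h3, h4, h5⟩ := Pool.Agent.J6H31.RF.art_rel A hr hn N hN hμ hd hT hm
  exact ⟨z, h1, h2, h3, h4, h5, Pool.Agent.J6H31.RF.art_inner A hr hn N hN hμ hd hT hm h1⟩
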